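import Pool.Agent.Run7.h91.RN.Det

set_option autoImplicit false

/-!
Graph reconstruction from any few cards: counting the graphs with many near twins or with near automorphisms of large
support.
-/

namespace Pool.Agent.Run7.h91.RN

open Finset
open scoped Classical

/-- the pairs of distinct vertices -/
noncomputable def Pr (n : ℕ) : Finset (Sym2 (Fin n)) := univ.filter (fun e => ¬ e.IsDiag)

theorem card_Pr (n : ℕ) : (Pr n).card = n.choose 2 := by
  have h := Sym2.card_subtype_not_diag (α := Fin n)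
  rw [Fintype.card_fin, Fintype.card_subtype] at h
  exact h

theorem count_le {n : ℕ} {T : Type} (S : Finset (SimpleGraph (Fin n))) (P : Finset (Sym2 (Fin n)))
    (hP : P ⊆ Pr n) (g : SimpleGraph (Fin n) → T) (A : Finset T) (hg : ∀ H ∈ S, g H ∈ A)
    (hinj : ∀ H ∈ S, ∀ H' ∈ S, (∀ x y, s(x, y) ∉ P → (H.Adj x y ↔ H'.Adj x y)) → g H = g H' → H = H') :
    S.card * 2 ^ P.card ≤ 2 ^ n.choose 2 * A.card := by
  have h1 : S.card ≤ ((Pr n \ P).powerset ×ˢ A).card := by
    apply card_le_card_of_injOn (fun H => (univ.filter (fun e => e ∈ H.edgeSet ∧ e ∉ P), g H))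
    · intro H hH
      rw [mem_coe, mem_product, mem_powerset]
      refine ⟨fun e he => ?_, hg H hH⟩
      rw [mem_filter] at he
      rw [mem_sdiff]
      refine ⟨?_, he.2.2⟩
      unfold Pr
      rw [mem_filter]
      exact ⟨mem_univ _, H.not_isDiag_of_mem_edgeSet he.2.1⟩
    · intro H hH H' hH' h
      have h2 := congrArg Prod.fst h
      have h3 := congrArg Prod.snd h
      simp only at h2 h3
      refine hinj H hH H' hH' (fun x y hxy => ?_) h3
      have h4 : s(x, y) ∈ univ.filter (fun e => e ∈ H.edgeSet ∧ e ∉ P) ↔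
          s(x, y) ∈ univ.filter (fun e => e ∈ H'.edgeSet ∧ e ∉ P) := by rw [h2]
      rw [mem_filter, mem_filter] at h4
      simpa [hxy] using h4
  have h2 : (Pr n \ P).card + P.card = n.choose 2 := by
    rw [← card_Pr, card_sdiff_add_card_eq_card hP]
  rw [card_product, card_powerset] at h1
  calc S.card * 2 ^ P.card ≤ (2 ^ (Pr n \ P).card * A.card) * 2 ^ P.card := Nat.mul_le_mul_right _ h1
    _ = 2 ^ ((Pr n \ P).card + P.card) * A.card := by rw [pow_add]; ring
    _ = _ := by rw [h2]

/-- near automorphisms with a large support -/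
noncomputable def Bad1 (n a : ℕ) : Finset (SimpleGraph (Fin n)) :=
  univ.filter (fun H => ∃ (τ : Equiv.Perm (Fin n)) (X : Finset (Fin n)), X.card = a ∧ (∀ x ∈ X, τ x ∉ X) ∧
    ∀ x ∈ X, ∀ y ∈ X, (H.Adj (τ x) (τ y) ↔ H.Adj x y))

theorem card_Bad1 (n a : ℕ) : (Bad1 n a).card * 2 ^ a.choose 2 ≤ 2 ^ n.choose 2 * (n.factorial * 2 ^ n) := by
  obtain ⟨Sx, hSx⟩ : ∃ Sx : Equiv.Perm (Fin n) × Finset (Fin n) → Finset (SimpleGraph (Fin n)), Sx = fun t =>
      univ.filter (fun H => t.2.card = a ∧ (∀ x ∈ t.2, t.1 x ∉ t.2) ∧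
        ∀ x ∈ t.2, ∀ y ∈ t.2, (H.Adj (t.1 x) (t.1 y) ↔ H.Adj x y)) := ⟨_, rfl⟩
  have hsub : Bad1 n a ⊆ (univ : Finset (Equiv.Perm (Fin n) × Finset (Fin n))).biUnion Sx := by
    intro H hH
    unfold Bad1 at hH
    rw [mem_filter] at hH
    obtain ⟨_, τ, X, h1⟩ := hH
    rw [mem_biUnion]
    refine ⟨(τ, X), mem_univ _, ?_⟩
    rw [hSx, mem_filter]
    exact ⟨mem_univ _, h1⟩
  have hone : ∀ t, (Sx t).card * 2 ^ a.choose 2 ≤ 2 ^ n.choose 2 := by
    intro t
    by_cases ht : t.2.card = a ∧ ∀ x ∈ t.2, t.1 x ∉ t.2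
    · have h := count_le (Sx t) (t.2.offDiag.image Sym2.mk.uncurry) (by
        intro e he
        rw [mem_image] at he
        obtain ⟨⟨x, y⟩, hxy, rfl⟩ := he
        rw [mem_offDiag] at hxy
        unfold Pr
        rw [mem_filter]
        refine ⟨mem_univ _, ?_⟩
        show ¬ (s(x, y)).IsDiag
        rw [Sym2.mk_isDiag_iff]
        exact hxy.2.2) (fun _ => ()) {()} (by simp) (by
        intro H hH H' hH' h _
        rw [hSx] at hH hH'
        simp only [mem_filter, mem_univ, true_and] at hH hH'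
        ext x y
        by_cases hxy : s(x, y) ∈ t.2.offDiag.image Sym2.mk.uncurry
        · rw [mem_image] at hxy
          obtain ⟨⟨x', y'⟩, hxy', he⟩ := hxy
          rw [mem_offDiag] at hxy'
          have hxX : x ∈ t.2 ∧ y ∈ t.2 := by
            change s(x', y') = s(x, y) at he
            rw [Sym2.eq_iff] at he
            rcases he with ⟨e1, e2⟩ | ⟨e1, e2⟩
            · rw [← e1, ← e2]
              exact ⟨hxy'.1, hxy'.2.1⟩
            · rw [← e1, ← e2]
              exact ⟨hxy'.2.1, hxy'.1⟩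
          rw [← hH.2.2 x hxX.1 y hxX.2, ← hH'.2.2 x hxX.1 y hxX.2]
          apply h
          intro hcon
          rw [mem_image] at hcon
          obtain ⟨⟨x'', y''⟩, hxy'', he⟩ := hcon
          rw [mem_offDiag] at hxy''
          change s(x'', y'') = s(t.1 x, t.1 y) at he
          rw [Sym2.eq_iff] at he
          rcases he with ⟨e1, e2⟩ | ⟨e1, e2⟩
          · exact ht.2 x hxX.1 (e1 ▸ hxy''.1)
          · exact ht.2 y hxX.2 (e1 ▸ hxy''.1)
        · exact h x y hxy)
      rw [Sym2.card_image_offDiag, ht.1] at h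
      simpa using h
    · have : Sx t = ∅ := by
        rw [hSx]
        apply filter_eq_empty_iff.2
        intro H _ h1
        exact ht ⟨h1.1, h1.2.1⟩
      rw [this]
      simp
  calc (Bad1 n a).card * 2 ^ a.choose 2
      ≤ ((univ : Finset (Equiv.Perm (Fin n) × Finset (Fin n))).biUnion Sx).card * 2 ^ a.choose 2 :=
        Nat.mul_le_mul_right _ (card_le_card hsub)
    _ ≤ (∑ t : Equiv.Perm (Fin n) × Finset (Fin n), (Sx t).card) * 2 ^ a.choose 2 :=
        Nat.mul_le_mul_right _ card_biUnion_le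
    _ = ∑ t : Equiv.Perm (Fin n) × Finset (Fin n), (Sx t).card * 2 ^ a.choose 2 := by rw [sum_mul]
    _ ≤ ∑ t : Equiv.Perm (Fin n) × Finset (Fin n), 2 ^ n.choose 2 := sum_le_sum fun t _ => hone t
    _ = 2 ^ n.choose 2 * (n.factorial * 2 ^ n) := by
        rw [sum_const, card_univ, Fintype.card_prod, Fintype.card_perm, Fintype.card_finset, Fintype.card_fin,
          smul_eq_mul]
        ring

/-- the number of small subsets -/
noncomputable def Nd (n d : ℕ) : ℕ := (univ.filter (fun s : Finset (Fin n) => s.card ≤ d)).card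

theorem Nd_le (n d : ℕ) (hd : d ≤ n) : Nd n d * 16 ^ (n - d) ≤ 17 ^ n := by
  have h := Fintype.sum_pow_mul_eq_add_pow (Fin n) (1 : ℕ) 16
  rw [Fintype.card_fin] at h
  calc Nd n d * 16 ^ (n - d) = ∑ s ∈ univ.filter (fun s : Finset (Fin n) => s.card ≤ d), 16 ^ (n - d) := by
        rw [sum_const, smul_eq_mul]
        rfl
    _ ≤ ∑ s ∈ univ.filter (fun s : Finset (Fin n) => s.card ≤ d), 1 ^ s.card * 16 ^ (n - s.card) := by
        apply sum_le_sum
        intro s hs
        rw [mem_filter] at hs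
        rw [one_pow, one_mul]
        exact Nat.pow_le_pow_right (by norm_num) (by omega)
    _ ≤ ∑ s : Finset (Fin n), 1 ^ s.card * 16 ^ (n - s.card) :=
        sum_le_sum_of_subset (filter_subset _ _)
    _ = 17 ^ n := by rw [h]

/-- many near twins -/
noncomputable def Bad2 (n r d : ℕ) : Finset (SimpleGraph (Fin n)) :=
  univ.filter (fun H => ∃ x p : Fin r → Fin n, Function.Injective x ∧ (∀ i j, p i ≠ x j) ∧
    ∀ i, (dif H (x i) (p i)).card ≤ d)

theorem card_Bad2 (n r d : ℕ) :
    (Bad2 n r d).card * 2 ^ (r * (n - r)) ≤ 2 ^ n.choose 2 * ((n ^ r * n ^ r) * Nd n d ^ r) := by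
  obtain ⟨Sx, hSx⟩ : ∃ Sx : (Fin r → Fin n) × (Fin r → Fin n) → Finset (SimpleGraph (Fin n)), Sx = fun t =>
      univ.filter (fun H => Function.Injective t.1 ∧ (∀ i j, t.2 i ≠ t.1 j) ∧
        ∀ i, (dif H (t.1 i) (t.2 i)).card ≤ d) := ⟨_, rfl⟩
  have hsub : Bad2 n r d ⊆ (univ : Finset ((Fin r → Fin n) × (Fin r → Fin n))).biUnion Sx := by
    intro H hH
    unfold Bad2 at hH
    rw [mem_filter] at hH
    obtain ⟨_, x, p, h1⟩ := hH
    rw [mem_biUnion]
    refine ⟨(x, p), mem_univ _, ?_⟩
    rw [hSx, mem_filter]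
    exact ⟨mem_univ _, h1⟩
  have hone : ∀ t, (Sx t).card * 2 ^ (r * (n - r)) ≤ 2 ^ n.choose 2 * Nd n d ^ r := by
    rintro ⟨x, p⟩
    by_cases ht : Function.Injective x ∧ (∀ i j, p i ≠ x j)
    · obtain ⟨hx, hp⟩ := ht
      obtain ⟨X, hX⟩ : ∃ X : Finset (Fin n), X = univ.image x := ⟨_, rfl⟩
      have hXm : ∀ i, x i ∈ X := fun i => by rw [hX]; exact mem_image_of_mem _ (mem_univ _)
      have hXc : X.card = r := by
        rw [hX, card_image_of_injective _ hx, card_univ, Fintype.card_fin]
      have hpX : ∀ i, p i ∉ X := fun i h => by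
        rw [hX, mem_image] at h
        obtain ⟨j, _, hj⟩ := h
        exact hp i j hj.symm
      have hPm : ∀ a b, s(a, b) ∈ ((univ : Finset (Fin r)) ×ˢ Xᶜ).image (fun t => s(x t.1, t.2)) ↔
          (a ∈ X ∧ b ∉ X) ∨ (b ∈ X ∧ a ∉ X) := by
        intro a b
        rw [mem_image]
        constructor
        · rintro ⟨⟨i, y⟩, hiy, he⟩
          rw [mem_product, mem_compl] at hiy
          rw [Sym2.eq_iff] at he
          rcases he with ⟨e1, e2⟩ | ⟨e1, e2⟩
          · simp only at e1 e2
            left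
            rw [← e1, ← e2]
            exact ⟨hXm i, hiy.2⟩
          · simp only at e1 e2
            right
            rw [← e1, ← e2]
            exact ⟨hXm i, hiy.2⟩
        · rintro (⟨h1, h2⟩ | ⟨h1, h2⟩)
          · rw [hX, mem_image] at h1
            obtain ⟨i, _, hi⟩ := h1
            refine ⟨(i, b), ?_, by simp only [hi]⟩
            rw [mem_product, mem_compl]
            exact ⟨mem_univ _, h2⟩
          · rw [hX, mem_image] at h1
            obtain ⟨i, _, hi⟩ := h1
            refine ⟨(i, a), ?_, by simp only [hi]; exact Sym2.eq_swap⟩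
            rw [mem_product, mem_compl]
            exact ⟨mem_univ _, h2⟩
      have hPc : (((univ : Finset (Fin r)) ×ˢ Xᶜ).image (fun t => s(x t.1, t.2))).card = r * (n - r) := by
        rw [card_image_of_injOn, card_product, card_univ, Fintype.card_fin, card_compl, Fintype.card_fin, hXc]
        rintro ⟨i, y⟩ h1 ⟨j, z⟩ h2 he
        rw [mem_coe, mem_product, mem_compl] at h1 h2
        simp only at he h1 h2
        rw [Sym2.eq_iff] at he
        rcases he with ⟨e1, e2⟩ | ⟨e1, e2⟩
        · rw [hx e1, e2]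
        · exact absurd (e1 ▸ hXm i) h2.2
      have h := count_le (Sx (x, p)) (((univ : Finset (Fin r)) ×ˢ Xᶜ).image (fun t => s(x t.1, t.2))) (by
        intro e he
        rw [mem_image] at he
        obtain ⟨⟨i, y⟩, hiy, rfl⟩ := he
        rw [mem_product, mem_compl] at hiy
        unfold Pr
        rw [mem_filter]
        refine ⟨mem_univ _, ?_⟩
        rw [Sym2.mk_isDiag_iff]
        intro e
        exact hiy.2 (e ▸ hXm i)) (fun H (i : Fin r) => dif H (x i) (p i))
        (Fintype.piFinset (fun _ => univ.filter (fun s : Finset (Fin n) => s.card ≤ d))) (by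
        intro H hH
        rw [hSx] at hH
        simp only [mem_filter, mem_univ, true_and] at hH
        rw [Fintype.mem_piFinset]
        intro i
        rw [mem_filter]
        exact ⟨mem_univ _, hH.2.2 i⟩) (by
        intro H hH H' hH' h hg
        have key : ∀ i y, y ∉ X → (H.Adj (x i) y ↔ H'.Adj (x i) y) := by
          intro i y hy
          have h1 : H.Adj (p i) y ↔ H'.Adj (p i) y := by
            apply h
            rw [hPm]
            rintro (⟨h1, _⟩ | ⟨h1, _⟩)
            · exact hpX i h1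
            · exact hy h1
          have h2 := congrFun hg i
          have h3 : y ∈ dif H (x i) (p i) ↔ y ∈ dif H' (x i) (p i) := by rw [h2]
          unfold dif at h3
          simp only [mem_filter, mem_univ, true_and] at h3
          by_cases c1 : H.Adj (p i) y
          · have c2 := h1.1 c1
            simp only [c1, c2, iff_true] at h3
            exact not_iff_not.1 h3
          · have c2 : ¬ H'.Adj (p i) y := fun c => c1 (h1.2 c)
            simp only [c1, c2, iff_false, not_not] at h3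
            exact h3
        ext a b
        by_cases hab : (a ∈ X ∧ b ∉ X) ∨ (b ∈ X ∧ a ∉ X)
        · rcases hab with ⟨ha, hb⟩ | ⟨hb, ha⟩
          · rw [hX, mem_image] at ha
            obtain ⟨i, _, rfl⟩ := ha
            exact key i b hb
          · rw [hX, mem_image] at hb
            obtain ⟨i, _, rfl⟩ := hb
            rw [H.adj_comm, H'.adj_comm]
            exact key i a ha
        · exact h a b (fun hc => hab ((hPm a b).1 hc)))
      rw [hPc, Fintype.card_piFinset, prod_const, card_univ, Fintype.card_fin] at h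
      exact h
    · have : Sx (x, p) = ∅ := by
        rw [hSx]
        apply filter_eq_empty_iff.2
        intro H _ h1
        exact ht ⟨h1.1, h1.2.1⟩
      rw [this]
      simp
  calc (Bad2 n r d).card * 2 ^ (r * (n - r))
      ≤ ((univ : Finset ((Fin r → Fin n) × (Fin r → Fin n))).biUnion Sx).card * 2 ^ (r * (n - r)) :=
        Nat.mul_le_mul_right _ (card_le_card hsub)
    _ ≤ (∑ t : (Fin r → Fin n) × (Fin r → Fin n), (Sx t).card) * 2 ^ (r * (n - r)) :=
        Nat.mul_le_mul_right _ card_biUnion_le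
    _ = ∑ t : (Fin r → Fin n) × (Fin r → Fin n), (Sx t).card * 2 ^ (r * (n - r)) := by rw [sum_mul]
    _ ≤ ∑ t : (Fin r → Fin n) × (Fin r → Fin n), 2 ^ n.choose 2 * Nd n d ^ r := sum_le_sum fun t _ => hone t
    _ = 2 ^ n.choose 2 * ((n ^ r * n ^ r) * Nd n d ^ r) := by
        rw [sum_const, card_univ, Fintype.card_prod, Fintype.card_fun, Fintype.card_fin, Fintype.card_fin,
          smul_eq_mul]
        ring

/-- the graphs which are not bad -/
theorem good {n : ℕ} (H : SimpleGraph (Fin n)) (a r d : ℕ) (had : 3 * a ≤ d + 1)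
    (h1 : H ∉ Bad1 n a) (h2 : H ∉ Bad2 n r d) : ∃ B : Finset (Fin n), B.card ≤ 3 * (r - 1) ∧
    ∀ (τ : Equiv.Perm (Fin n)) (a b : Fin n),
      (∀ x y, x ≠ a → x ≠ b → y ≠ a → y ≠ b → (H.Adj (τ x) (τ y) ↔ H.Adj x y)) →
      ∀ x, x ≠ a → x ≠ b → x ∉ B → τ x = x := by
  unfold Bad1 at h1
  unfold Bad2 at h2
  simp only [mem_filter, mem_univ, true_and] at h1 h2
  obtain ⟨B, hB⟩ : ∃ B : Finset (Fin n), B = univ.filter (fun x => ∃ y, y ≠ x ∧ (dif H x y).card ≤ d) := ⟨_, rfl⟩
  have hBm : ∀ x, x ∈ B ↔ ∃ y, y ≠ x ∧ (dif H x y).card ≤ d := fun x => by rw [hB, mem_filter]; simp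
  refine ⟨B, ?_, ?_⟩
  · have hp : ∀ x : Fin n, ∃ y, x ∈ B → y ≠ x ∧ (dif H x y).card ≤ d := by
      intro x
      by_cases hx : x ∈ B
      · obtain ⟨y, hy⟩ := (hBm x).1 hx
        exact ⟨y, fun _ => hy⟩
      · exact ⟨x, fun h => absurd h hx⟩
    choose p hp using hp
    obtain ⟨X, hXB, hXc, hXp⟩ := exists_indep p B.card B le_rfl (fun x hx => (hp x hx).1)
    have hXr : X.card ≤ r - 1 := by
      by_contra hcon
      push Not at hcon
      obtain ⟨Y, hYX, hYc⟩ := exists_subset_card_eq (show r ≤ X.card by omega)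
      apply h2
      refine ⟨fun i => ((Y.equivFinOfCardEq hYc).symm i : Fin n), fun i => p ((Y.equivFinOfCardEq hYc).symm i : Fin n),
        fun i j hij => (Y.equivFinOfCardEq hYc).symm.injective (Subtype.ext hij), fun i j hij => ?_, fun i => ?_⟩
      · have e1 := hYX ((Y.equivFinOfCardEq hYc).symm j).2
        have e2 := hXp _ (hYX ((Y.equivFinOfCardEq hYc).symm i).2)
        change p _ = _ at hij
        rw [hij] at e2
        exact e2 e1
      · exact (hp _ (hXB (hYX ((Y.equivFinOfCardEq hYc).symm i).2))).2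
    omega
  · intro τ u v hτ x hxu hxv hxB
    by_contra hne
    obtain ⟨M, hM⟩ : ∃ M : Finset (Fin n), M = univ.filter (fun z => z ≠ u ∧ z ≠ v ∧ τ z ≠ z) := ⟨_, rfl⟩
    have hMm : ∀ z, z ∈ M ↔ z ≠ u ∧ z ≠ v ∧ τ z ≠ z := fun z => by rw [hM, mem_filter]; simp
    obtain ⟨X, hXM, hXc, hXp⟩ := exists_indep (fun z => τ z) M.card M le_rfl (fun z hz => ((hMm z).1 hz).2.2)
    have hXa : X.card < a := by
      by_contra hcon
      push Not at hcon
      obtain ⟨Y, hYX, hYc⟩ := exists_subset_card_eq hcon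
      apply h1
      refine ⟨τ, Y, hYc, fun z hz hc => hXp z (hYX hz) (hYX hc), fun z hz w hw => ?_⟩
      have e1 := (hMm z).1 (hXM (hYX hz))
      have e2 := (hMm w).1 (hXM (hYX hw))
      exact hτ z w e1.1 e1.2.1 e2.1 e2.2.1
    apply hxB
    rw [hBm]
    refine ⟨τ x, hne, ?_⟩
    have hsub : dif H x (τ x) ⊆ {u, v} ∪ M := by
      intro z hz
      unfold dif at hz
      rw [mem_filter] at hz
      rw [mem_union, mem_insert, mem_singleton, hMm]
      by_contra hcon
      push Not at hcon
      obtain ⟨⟨c1, c2⟩, c3⟩ := hcon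
      have c4 := c3 c1 c2
      apply hz.2
      have c5 := hτ x z hxu hxv c1 c2
      rw [c4] at c5
      exact c5.symm
    have e1 := card_le_card hsub
    have e2 := card_union_le ({u, v} : Finset (Fin n)) M
    have e3 := card_le_two (a := u) (b := v)
    omega

end Pool.Agent.Run7.h91.RN
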