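import Mathlib

set_option autoImplicit false

/-!
Graph reconstruction from any few cards: the deterministic part.
-/

namespace Pool.Agent.Run7.h91.RN

open Finset

/-- A function without fixed points on `B` has a subset `X` of `B` with a third of the elements which is disjoint from its
image. -/
theorem exists_indep {V : Type} [DecidableEq V] (p : V → V) : ∀ (k : ℕ) (B : Finset V), B.card ≤ k → (∀ x ∈ B, p x ≠ x) →
    ∃ X ⊆ B, B.card ≤ 3 * X.card ∧ ∀ x ∈ X, p x ∉ X := by
  intro k
  induction k with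
  | zero =>
    intro B hk _
    exact ⟨∅, empty_subset _, by simpa using hk, by simp⟩
  | succ k ih =>
    intro B hk hB
    rcases B.eq_empty_or_nonempty with h0 | h0
    · subst h0
      exact ⟨∅, empty_subset _, by simp, by simp⟩
    have hsum : ∑ b ∈ B, (B.filter (fun a => p a = b)).card ≤ ∑ b ∈ B, 1 := by
      have h1 : ∑ b ∈ B, (B.filter (fun a => p a = b)).card = ∑ a ∈ B, (B.filter (fun b => p a = b)).card := by
        simp only [card_filter]
        exact sum_comm
      rw [h1]
      apply sum_le_sum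
      intro a _
      rw [card_le_one]
      intro x hx y hy
      rw [← (mem_filter.1 hx).2, ← (mem_filter.1 hy).2]
    obtain ⟨b, hb, hb1⟩ := exists_le_of_sum_le h0 hsum
    obtain ⟨B', hB'⟩ : ∃ B', B' = B \ ({b, p b} ∪ B.filter (fun a => p a = b)) := ⟨_, rfl⟩
    have hbB' : b ∉ B' := by rw [hB']; simp
    have hsub : B' ⊆ B := by rw [hB']; exact sdiff_subset
    have hc1 : B'.card < B.card := card_lt_card ⟨hsub, fun h => hbB' (h hb)⟩
    have hc2 : B.card ≤ B'.card + 3 := by
      have h1 : ({b, p b} ∪ B.filter (fun a => p a = b)).card ≤ 3 :=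
        (card_union_le _ _).trans (by
          have := card_le_two (a := b) (b := p b)
          omega)
      have h2 := le_card_sdiff ({b, p b} ∪ B.filter (fun a => p a = b)) B
      rw [hB']
      omega
    obtain ⟨X, hX1, hX2, hX3⟩ := ih B' (by omega) (fun x hx => hB x (hsub hx))
    refine ⟨insert b X, insert_subset hb (hX1.trans hsub), ?_, ?_⟩
    · rw [card_insert_of_notMem (fun h => hbB' (hX1 h))]
      omega
    · intro x hx
      rw [mem_insert] at hx
      rw [mem_insert, not_or]
      rcases hx with rfl | hx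
      · refine ⟨hB x hb, fun h => ?_⟩
        have := hX1 h
        rw [hB'] at this
        simp at this
      · refine ⟨fun h => ?_, hX3 x hx⟩
        have h2 := hX1 hx
        have h3 := hsub h2
        rw [hB'] at h2
        simp [h3, h] at h2

/-- near twins -/
def dif {V : Type} [Fintype V] (H : SimpleGraph V) [DecidableRel H.Adj] (x y : V) : Finset V :=
  univ.filter (fun z => ¬ (H.Adj x z ↔ H.Adj y z))

/-- The bound for functions and permutations: the reconstruction argument. -/
theorem few {V : Type} [Fintype V] [DecidableEq V] (B T : Finset V) (hB : B.Nonempty) (v₀ : V)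
    (h : V → V → Prop) (β : V → V → V) (hβB : ∀ v ∈ T, ∀ x ∈ B, β v x ∈ B)
    (hinv : ∀ v ∈ T, v ≠ v₀ → ∀ u ∈ T, u ≠ v → u ≠ v₀ → ∀ x ∈ B, (h v (β u x) ↔ h v x))
    (hne : ∀ v ∈ T, v ≠ v₀ → ∃ x ∈ B, ¬ (h v (β v x) ↔ h v x)) : T.card ≤ B.card := by
  classical
  let F : {v // v ∈ T} → ({x // x ∈ B} → ℚ) := fun v => if (v : V) = v₀ then 1 else fun x => if h v x then 1 else 0
  have hli : LinearIndependent ℚ F := by
    rw [Fintype.linearIndependent_iff]
    intro g hg
    have key : ∀ u : {v // v ∈ T}, (u : V) ≠ v₀ → g u = 0 := by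
      intro u hu
      obtain ⟨x, hx, hxu⟩ := hne u u.2 hu
      have e1 := congrFun hg ⟨x, hx⟩
      have e2 := congrFun hg ⟨β u x, hβB u u.2 x hx⟩
      simp only [Finset.sum_apply, Pi.smul_apply, smul_eq_mul, Pi.zero_apply] at e1 e2
      have e3 : ∑ v : {v // v ∈ T}, (g v * F v ⟨β u x, hβB u u.2 x hx⟩ - g v * F v ⟨x, hx⟩) = 0 := by
        rw [sum_sub_distrib, e1, e2, sub_zero]
      rw [sum_eq_single u] at e3
      · have e4 : F u ⟨β u x, hβB u u.2 x hx⟩ - F u ⟨x, hx⟩ ≠ 0 := by
          simp only [F, hu, if_false]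
          by_cases c1 : h u (β u x) <;> by_cases c2 : h u x
          · exact absurd (iff_of_true c1 c2) hxu
          · simp [c1, c2]
          · simp [c1, c2]
          · exact absurd (iff_of_false c1 c2) hxu
        rw [← mul_sub] at e3
        exact (mul_eq_zero.1 e3).resolve_right e4
      · intro v _ hv
        have hv' : (v : V) ≠ u := fun e => hv (Subtype.ext e)
        by_cases hv0 : (v : V) = v₀
        · simp [F, hv0]
        · have := hinv v v.2 hv0 u u.2 (Ne.symm hv') hu x hx
          simp only [F, hv0, if_false, this, sub_self]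
      · intro hcon
        exact absurd (mem_univ _) hcon
    intro u
    by_cases hu : (u : V) = v₀
    · obtain ⟨x, hx⟩ := hB
      have e1 := congrFun hg ⟨x, hx⟩
      simp only [Finset.sum_apply, Pi.smul_apply, smul_eq_mul, Pi.zero_apply] at e1
      rw [sum_eq_single u] at e1
      · simpa [F, hu] using e1
      · intro v _ hv
        rw [key v (fun e => hv (Subtype.ext (e.trans hu.symm))), zero_mul]
      · intro hcon
        exact absurd (mem_univ _) hcon
    · exact key u hu
  have h1 := hli.fintype_card_le_finrank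
  simpa using h1

/-- **The deterministic theorem.** -/
theorem det {V : Type} [Fintype V] [DecidableEq V] (H G : SimpleGraph V) (B U : Finset V)
    (hna : ∀ (τ : Equiv.Perm V) (a b : V), (∀ x y, x ≠ a → x ≠ b → y ≠ a → y ≠ b → (H.Adj (τ x) (τ y) ↔ H.Adj x y)) →
      ∀ x, x ≠ a → x ≠ b → x ∉ B → τ x = x)
    (π : V → Equiv.Perm V) (hfix : ∀ v ∈ U, π v v = v)
    (hadj : ∀ v ∈ U, ∀ x y, x ≠ v → y ≠ v → (H.Adj (π v x) (π v y) ↔ G.Adj x y))
    (hU1 : B.card + 1 ≤ (U \ B).card) (hU3 : 3 ≤ (U \ B).card) :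
    ∃ σ : Equiv.Perm V, ∀ x y, H.Adj (σ x) (σ y) ↔ G.Adj x y := by
  classical
  -- the transition maps
  have htr : ∀ u ∈ U, ∀ v ∈ U, u ≠ v → ∀ x, x ≠ v → x ≠ π v u → x ∉ B → (π u) ((π v).symm x) = x := by
    intro u hu v hv huv x hx1 hx2 hxB
    have key := hna ((π v).symm.trans (π u)) v (π v u) (by
      intro x y hx1 hx2 hy1 hy2
      have a1 : (π v).symm x ≠ v := fun e => hx1 (by
        rw [Equiv.symm_apply_eq] at e
        rw [e, hfix v hv])
      have a2 : (π v).symm x ≠ u := fun e => hx2 ((Equiv.symm_apply_eq _).1 e)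
      have b1 : (π v).symm y ≠ v := fun e => hy1 (by
        rw [Equiv.symm_apply_eq] at e
        rw [e, hfix v hv])
      have b2 : (π v).symm y ≠ u := fun e => hy2 ((Equiv.symm_apply_eq _).1 e)
      simp only [Equiv.trans_apply]
      rw [hadj u hu _ _ a2 b2, ← hadj v hv _ _ a1 b1, Equiv.apply_symm_apply, Equiv.apply_symm_apply]) x hx1 hx2 hxB
    simpa using key
  have hpt : ∀ u ∈ U, ∀ v ∈ U, u ≠ v → v ∉ B → π u v = v := by
    intro u hu v hv huv hvB
    by_contra hne
    have h1 := htr v hv u hu (Ne.symm huv) v (Ne.symm huv) (Ne.symm hne) hvB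
    have h2 : (π u).symm v = v := by
      have := (π v).injective (h1.trans (hfix v hv).symm)
      exact this
    rw [Equiv.symm_apply_eq] at h2
    exact hne h2.symm
  obtain ⟨v₀, hv₀⟩ : (U \ B).Nonempty := card_pos.1 (by omega)
  have hv₀U := (mem_sdiff.1 hv₀).1
  have hv₀B := (mem_sdiff.1 hv₀).2
  -- agreement outside `B`
  have hag : ∀ v ∈ U \ B, ∀ x, x ∉ B → π v ((π v₀).symm x) = x := by
    intro v hv x hx
    have hvU := (mem_sdiff.1 hv).1
    have hvB := (mem_sdiff.1 hv).2
    by_cases hvv : v = v₀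
    · rw [hvv, Equiv.apply_symm_apply]
    · by_cases h1 : x = v₀
      · rw [h1]
        have : (π v₀).symm v₀ = v₀ := by rw [Equiv.symm_apply_eq, hfix v₀ hv₀U]
        rw [this, hpt v hvU v₀ hv₀U hvv hv₀B]
      · by_cases h2 : x = v
        · rw [h2]
          have : (π v₀).symm v = v := by rw [Equiv.symm_apply_eq, hpt v₀ hv₀U v hvU (Ne.symm hvv) hvB]
          rw [this, hfix v hvU]
        · apply htr v hvU v₀ hv₀U hvv x h1 _ hx
          rw [hpt v₀ hv₀U v hvU (Ne.symm hvv) hvB]
          exact h2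
  -- the relabelled graph
  obtain ⟨β, hβ⟩ : ∃ β : V → Equiv.Perm V, β = fun v => (π v₀).symm.trans (π v) := ⟨_, rfl⟩
  have hβv : ∀ v x, β v x = π v ((π v₀).symm x) := fun v x => by rw [hβ]; rfl
  obtain ⟨G', hG'⟩ : ∃ G' : V → V → Prop, G' = fun x y => G.Adj ((π v₀).symm x) ((π v₀).symm y) := ⟨_, rfl⟩
  have hsymm : ∀ x y, G' x y ↔ G' y x := fun x y => by rw [hG']; exact G.adj_comm _ _
  have hout : ∀ v ∈ U \ B, ∀ x, x ∉ B → β v x = x := fun v hv x hx => by rw [hβv]; exact hag v hv x hx
  have hin : ∀ v ∈ U \ B, ∀ x ∈ B, β v x ∈ B := by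
    intro v hv x hx
    by_contra hcon
    have h1 := hout v hv _ hcon
    have := (β v).injective h1
    rw [this] at hcon
    exact hcon hx
  have hβ0 : ∀ x, β v₀ x = x := fun x => by rw [hβv, Equiv.apply_symm_apply]
  have hadj' : ∀ v ∈ U \ B, ∀ x y, x ≠ v → y ≠ v → (H.Adj (β v x) (β v y) ↔ G' x y) := by
    intro v hv x y hx hy
    have hvU := (mem_sdiff.1 hv).1
    have hvB := (mem_sdiff.1 hv).2
    have hs : (π v₀).symm v = v := by
      by_cases hvv : v = v₀
      · rw [hvv, Equiv.symm_apply_eq, hfix v₀ hv₀U]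
      · rw [Equiv.symm_apply_eq, hpt v₀ hv₀U v hvU (Ne.symm hvv) hvB]
    rw [hβv, hβv, hG']
    apply hadj v hvU
    · intro e
      rw [← hs] at e
      exact hx ((π v₀).symm.injective e)
    · intro e
      rw [← hs] at e
      exact hy ((π v₀).symm.injective e)
  by_contra hcon
  -- every card map fails at its own vertex
  have hfail : ∀ v ∈ U \ B, ∃ x ∈ B, ¬ (H.Adj v (β v x) ↔ G' v x) := by
    intro v hv
    by_contra hno
    push Not at hno
    have hvB := (mem_sdiff.1 hv).2
    have hvx : ∀ x, H.Adj v (β v x) ↔ G' v x := by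
      intro x
      by_cases hx : x ∈ B
      · exact hno x hx
      · rw [hout v hv x hx]
        obtain ⟨u, hu, huv, hux⟩ : ∃ u ∈ U \ B, u ≠ v ∧ u ≠ x := by
          by_contra h4
          push Not at h4
          have : U \ B ⊆ {v, x} := by
            intro u hu
            rw [mem_insert, mem_singleton]
            by_cases e : u = v
            · exact Or.inl e
            · exact Or.inr (h4 u hu e)
          have := card_le_card this
          have h5 := card_le_two (a := v) (b := x)
          omega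
        have h6 := hadj' u hu v x (Ne.symm huv) (Ne.symm hux)
        rw [hout u hu v hvB, hout u hu x hx] at h6
        exact h6
    apply hcon
    refine ⟨(π v₀).trans (β v), fun x y => ?_⟩
    simp only [Equiv.trans_apply]
    have e0 : G.Adj x y ↔ G' (π v₀ x) (π v₀ y) := by rw [hG']; simp
    rw [e0]
    have hbv : β v v = v := hout v hv v hvB
    by_cases e1 : π v₀ x = v
    · rw [e1, hbv]
      exact hvx _
    · by_cases e2 : π v₀ y = v
      · rw [e2, hbv, H.adj_comm, hsymm]
        exact hvx _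
      · exact hadj' v hv _ _ e1 e2
  have hBn : B.Nonempty := by
    obtain ⟨x, hx, _⟩ := hfail v₀ hv₀
    exact ⟨x, hx⟩
  have hG'H : ∀ v ∈ U \ B, v ≠ v₀ → ∀ x ∈ B, (G' v x ↔ H.Adj v x) := by
    intro v hv hvv x hx
    have := hadj' v₀ hv₀ v x hvv (fun e => hv₀B (e ▸ hx))
    rw [hβ0, hβ0] at this
    exact this.symm
  have hfew := few B (U \ B) hBn v₀ (fun v x => H.Adj v x) (fun v x => β v x) hin (by
    intro v hv hvv u hu huv _ x hx
    have h1 := hadj' u hu v x (Ne.symm huv) (fun e => (mem_sdiff.1 hu).2 (e ▸ hx))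
    rw [hout u hu v (mem_sdiff.1 hv).2, hG'H v hv hvv x hx] at h1
    exact h1) (by
    intro v hv hvv
    obtain ⟨x, hx, h1⟩ := hfail v hv
    refine ⟨x, hx, fun h2 => h1 ?_⟩
    rw [hG'H v hv hvv x hx]
    exact h2)
  omega

end Pool.Agent.Run7.h91.RN
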