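import Pool.Agent.Run7.h91.RN.Up

set_option autoImplicit false

/-!
Graph reconstruction from any few cards: the lower bound.
-/

namespace Pool.Agent.Run7.h91.RN

open Finset
open scoped Classical
open Pool.Agent.H234RC (TLat TCard)

/-- The graph `R` on the vertices `≥ 2 m`, joined with the vertices in `T`. -/
def Gr (n m : ℕ) (T : Finset (Fin n)) (R : SimpleGraph (Fin n)) : SimpleGraph (Fin n) where
  Adj x y := R.Adj x y ∨ (x ∈ T ∧ x.val < 2 * m ∧ 2 * m ≤ y.val) ∨ (y ∈ T ∧ y.val < 2 * m ∧ 2 * m ≤ x.val)
  symm := ⟨fun x y h => by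
    rcases h with h | h | h
    · exact Or.inl h.symm
    · exact Or.inr (Or.inr h)
    · exact Or.inr (Or.inl h)⟩
  loopless := ⟨fun x h => by
    rcases h with h | h | h
    · exact R.loopless.irrefl x h
    · omega
    · omega⟩

/-- the middle vertices -/
noncomputable def J (n m : ℕ) : Finset (Fin n) := univ.filter (fun x => m ≤ x.val ∧ x.val < 2 * m)

theorem card_J {n m : ℕ} (h : 2 * m ≤ n) : (J n m).card = m := by
  have h1 : (J n m).card = (Finset.Ico m (2 * m)).card := by
    apply card_nbij (fun x => x.val)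
    · intro x hx
      unfold J at hx
      rw [mem_coe, mem_filter] at hx
      rw [mem_coe, mem_Ico]
      exact hx.2
    · intro x _ y _ hxy
      exact Fin.ext hxy
    · intro k hk
      rw [mem_coe, mem_Ico] at hk
      refine ⟨⟨k, by omega⟩, ?_, rfl⟩
      unfold J
      rw [mem_coe, mem_filter]
      exact ⟨mem_univ _, hk⟩
  rw [h1, Nat.card_Ico]
  omega

theorem not_det {n m : ℕ} (hm : 1 ≤ m) (hmn : 2 * m + 1 ≤ n) (R : SimpleGraph (Fin n))
    (hR : ∀ x y, R.Adj x y → 2 * m ≤ x.val ∧ 2 * m ≤ y.val) : ¬ Det m (Gr n m (J n m) R) := by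
  intro hD
  obtain ⟨q, hq⟩ : ∃ q : Fin n, q.val = m := ⟨⟨m, by omega⟩, rfl⟩
  have hJm : ∀ x : Fin n, x ∈ J n m ↔ m ≤ x.val ∧ x.val < 2 * m := fun x => by
    unfold J
    rw [mem_filter]
    simp
  have hqJ : q ∈ J n m := (hJm q).2 (by omega)
  have hcards := hD (J n m) (by rw [card_J (by omega)]) (Fin n) (Gr n m (J n m \ {q}) R)
    (fun v => ⟨v.val - m, by omega⟩) (by
      intro x hx y hy h
      rw [hJm] at hx hy
      have := congrArg Fin.val h
      simp only at this
      exact Fin.ext (by omega)) (by
      intro v hv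
      obtain ⟨w, hw⟩ : ∃ w : Fin n, w = ⟨v.val - m, by omega⟩ := ⟨_, rfl⟩
      rw [← hw]
      have hvJ := (hJm v).1 hv
      have hwv : w.val < m := by rw [hw]; simp only; omega
      have hwq : w ≠ q := fun e => by rw [e] at hwv; omega
      have hwv' : w ≠ v := fun e => by rw [e] at hwv; omega
      obtain ⟨e, he⟩ : ∃ e : Equiv.Perm (Fin n), e = Equiv.swap w q * Equiv.swap q v := ⟨_, rfl⟩
      have ev : e v = w := by rw [he, Equiv.Perm.mul_apply, Equiv.swap_apply_right, Equiv.swap_apply_right]
      have ew : e w = q := by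
        rw [he, Equiv.Perm.mul_apply, Equiv.swap_apply_of_ne_of_ne hwq hwv', Equiv.swap_apply_left]
      have eq1 : q ≠ v → e q = v := by
        intro h
        rw [he, Equiv.Perm.mul_apply, Equiv.swap_apply_left, Equiv.swap_apply_of_ne_of_ne (Ne.symm hwv') (Ne.symm h)]
      have eo : ∀ x, x ≠ w → x ≠ q → x ≠ v → e x = x := by
        intro x h1 h2 h3
        rw [he, Equiv.Perm.mul_apply, Equiv.swap_apply_of_ne_of_ne h2 h3, Equiv.swap_apply_of_ne_of_ne h1 h2]
      have ebig : ∀ x : Fin n, 2 * m ≤ x.val → e x = x := by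
        intro x hx
        apply eo
        · intro h; rw [h] at hx; omega
        · intro h; rw [h] at hx; omega
        · intro h; rw [h] at hx; omega
      have esmall : ∀ x : Fin n, 2 * m ≤ (e x).val ↔ 2 * m ≤ x.val := by
        intro x
        constructor
        · intro h
          have := ebig (e x) h
          have := e.injective this
          rw [this] at h
          exact h
        · intro h
          rw [ebig x h]
          exact h
      have esmall' : ∀ x : Fin n, (e x).val < 2 * m ↔ x.val < 2 * m := by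
        intro x
        rw [← not_le, ← not_le, esmall]
      have eJ : ∀ x, x ≠ v → (e x ∈ J n m \ {q} ↔ x ∈ J n m) := by
        intro x hx
        rw [mem_sdiff, mem_singleton]
        by_cases h1 : x = w
        · rw [h1, ew]
          constructor
          · rintro ⟨_, h⟩
            exact absurd rfl h
          · intro h
            rw [hJm] at h
            omega
        · by_cases h2 : x = q
          · rw [h2, eq1 (by rw [← h2]; exact hx)]
            constructor
            · intro _
              exact hqJ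
            · intro _
              refine ⟨hv, fun h => hx (h2.trans h.symm)⟩
          · rw [eo x h1 h2 hx]
            exact ⟨fun h => h.1, fun h => ⟨h, h2⟩⟩
      apply Pool.Agent.Y395.RS.card_of _ _ v w e ev
      intro x y hx hy
      show (R.Adj (e x) (e y) ∨ _ ∨ _) ↔ (R.Adj x y ∨ _ ∨ _)
      have hRe : R.Adj (e x) (e y) ↔ R.Adj x y := by
        constructor
        · intro h
          have h1 := hR _ _ h
          rw [esmall, esmall] at h1
          rw [ebig x h1.1, ebig y h1.2] at h
          exact h
        · intro h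
          have h1 := hR _ _ h
          rw [ebig x h1.1, ebig y h1.2]
          exact h
      rw [hRe, eJ x hx, eJ y hy, esmall, esmall, esmall', esmall'])
  obtain ⟨e, he⟩ := Pool.Agent.Y395.RS.lat_iso _ _ hcards
  -- the numbers of edges are different
  have h1 : (univ.filter (fun t : Fin n × Fin n => (Gr n m (J n m) R).Adj t.1 t.2)).card =
      (univ.filter (fun t : Fin n × Fin n => (Gr n m (J n m \ {q}) R).Adj t.1 t.2)).card := by
    apply card_equiv (e.prodCongr e)
    intro t
    rw [mem_filter, mem_filter]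
    simp only [mem_univ, true_and, Equiv.prodCongr_apply, Prod.map_fst, Prod.map_snd]
    exact (he t.1 t.2).symm
  have h2 : (univ.filter (fun t : Fin n × Fin n => (Gr n m (J n m \ {q}) R).Adj t.1 t.2)) ⊂
      (univ.filter (fun t : Fin n × Fin n => (Gr n m (J n m) R).Adj t.1 t.2)) := by
    rw [ssubset_iff_of_subset]
    · refine ⟨(q, ⟨2 * m, by omega⟩), ?_, ?_⟩
      · rw [mem_filter]
        exact ⟨mem_univ _, Or.inr (Or.inl ⟨hqJ, by simp only; omega, le_rfl⟩)⟩
      · rw [mem_filter]
        rintro ⟨_, h | h | h⟩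
        · have := (hR _ _ h).1
          simp only at this
          omega
        · have := h.1
          rw [mem_sdiff, mem_singleton] at this
          exact this.2 rfl
        · have := h.2.1
          simp only at this
          omega
    · intro t ht
      rw [mem_filter] at ht ⊢
      refine ⟨mem_univ _, ?_⟩
      rcases ht.2 with h | h | h
      · exact Or.inl h
      · exact Or.inr (Or.inl ⟨(mem_sdiff.1 h.1).1, h.2⟩)
      · exact Or.inr (Or.inr ⟨(mem_sdiff.1 h.1).1, h.2⟩)
  have h3 := card_lt_card h2
  omega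

/-- the embedding of the last vertices -/
def emb (n m : ℕ) : Fin (n - 2 * m) ↪ Fin n :=
  ⟨fun i => ⟨i.val + 2 * m, by omega⟩, fun i j h => by
    have := congrArg Fin.val h
    simp only at this
    exact Fin.ext (by omega)⟩

theorem lower_nat {n m : ℕ} (hm : 1 ≤ m) (hmn : 2 * m + 1 ≤ n) :
    2 ^ (n - 2 * m).choose 2 ≤ {H : SimpleGraph (Fin n) | ¬ Det m H}.ncard := by
  rw [← card_Pr, ← card_powerset, ← Set.ncard_coe_finset]
  apply Set.ncard_le_ncard_of_injOn
    (fun s : Finset (Sym2 (Fin (n - 2 * m))) =>
      Gr n m (J n m) ((SimpleGraph.fromEdgeSet (s : Set (Sym2 (Fin (n - 2 * m))))).map (emb n m)))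
  · intro s _
    apply not_det hm hmn
    intro x y h
    rw [SimpleGraph.map_adj] at h
    obtain ⟨a, b, _, h2, h3⟩ := h
    rw [← h2, ← h3]
    exact ⟨Nat.le_add_left _ _, Nat.le_add_left _ _⟩
  · intro s hs t ht hst
    rw [mem_coe, mem_powerset] at hs ht
    have key : ∀ s : Finset (Sym2 (Fin (n - 2 * m))), s ⊆ Pr (n - 2 * m) → ∀ a b : Fin (n - 2 * m),
        (s(a, b) ∈ s ↔ (Gr n m (J n m) ((SimpleGraph.fromEdgeSet (s : Set (Sym2 (Fin (n - 2 * m))))).map
          (emb n m))).Adj (emb n m a) (emb n m b)) := by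
      intro s hs a b
      constructor
      · intro h
        left
        rw [SimpleGraph.map_adj]
        refine ⟨a, b, ?_, rfl, rfl⟩
        rw [SimpleGraph.fromEdgeSet_adj]
        refine ⟨h, ?_⟩
        have := hs h
        unfold Pr at this
        rw [mem_filter, Sym2.mk_isDiag_iff] at this
        exact this.2
      · rintro (h | h | h)
        · rw [SimpleGraph.map_adj] at h
          obtain ⟨a', b', h1, h2, h3⟩ := h
          rw [SimpleGraph.fromEdgeSet_adj] at h1
          rw [← (emb n m).injective h2, ← (emb n m).injective h3]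
          exact h1.1
        · have h2 : a.val + 2 * m < 2 * m := h.2.1
          omega
        · have h2 : b.val + 2 * m < 2 * m := h.2.1
          omega
    ext z
    induction z using Sym2.ind with
    | h a b =>
      rw [key s hs a b, key t ht a b]
      simp only at hst
      rw [hst]

theorem lower {n m : ℕ} (hm : 1 ≤ m) (hmn : 2 * m + 1 ≤ n) :
    (2 : ℝ) ^ ((n.choose 2 : ℝ) - 2 * m * n) ≤ (({H : SimpleGraph (Fin n) | ¬ Det m H}.ncard : ℕ) : ℝ) := by
  have h := lower_nat hm hmn
  have h1 : ((2 ^ (n - 2 * m).choose 2 : ℕ) : ℝ) ≤ (({H : SimpleGraph (Fin n) | ¬ Det m H}.ncard : ℕ) : ℝ) := by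
    exact_mod_cast h
  refine le_trans ?_ h1
  rw [Nat.cast_pow, Nat.cast_ofNat, ← Real.rpow_natCast]
  apply Real.rpow_le_rpow_of_exponent_le (by norm_num)
  rw [Nat.cast_choose_two ℝ n, Nat.cast_choose_two ℝ (n - 2 * m), Nat.cast_sub (by omega)]
  push_cast
  have hm1 : (1 : ℝ) ≤ m := by exact_mod_cast hm
  have hn : (2 : ℝ) * m + 1 ≤ n := by exact_mod_cast hmn
  nlinarith

end Pool.Agent.Run7.h91.RN
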