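import Pool.Agent.Run7.h91.RN.Cnt

set_option autoImplicit false

/-!
Graph reconstruction from any few cards: the number of bad graphs.
-/

namespace Pool.Agent.Run7.h91.RN

open Finset Filter
open scoped Classical

theorem seventeen : (17 : ℝ) ≤ 2 ^ (17 / 4 : ℝ) := by
  have h : ((17 : ℝ) ^ (4 : ℕ)) ^ (1 / 4 : ℝ) ≤ ((2 : ℝ) ^ (17 : ℕ)) ^ (1 / 4 : ℝ) :=
    Real.rpow_le_rpow (by positivity) (by norm_num) (by norm_num)
  rw [← Real.rpow_natCast, ← Real.rpow_natCast, ← Real.rpow_mul (by norm_num), ← Real.rpow_mul (by norm_num)] at h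
  norm_num at h
  exact h

theorem Nd_real (n d : ℕ) (hd : 16 * d ≤ n) : (Nd n d : ℝ) ≤ 2 ^ ((n : ℝ) / 2) := by
  have h := Nd_le n d (by omega)
  have h1 : (Nd n d : ℝ) * 16 ^ (n - d) ≤ 17 ^ n := by exact_mod_cast h
  have h2 : (17 : ℝ) ^ n ≤ 2 ^ (17 / 4 * (n : ℝ)) := by
    rw [Real.rpow_mul (by norm_num), Real.rpow_natCast]
    exact pow_le_pow_left₀ (by norm_num) seventeen n
  have h3 : (16 : ℝ) ^ (n - d) = 2 ^ (4 * ((n : ℝ) - d)) := by
    rw [Real.rpow_mul (by norm_num), ← Nat.cast_sub (by omega : d ≤ n), Real.rpow_natCast]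
    norm_num
  have h4 : (0 : ℝ) < 2 ^ (4 * ((n : ℝ) - d)) := by positivity
  have h5 : (Nd n d : ℝ) ≤ 2 ^ (17 / 4 * (n : ℝ) - 4 * ((n : ℝ) - d)) := by
    rw [Real.rpow_sub (by norm_num), le_div_iff₀ h4, ← h3]
    exact h1.trans h2
  refine h5.trans ?_
  apply Real.rpow_le_rpow_of_exponent_le (by norm_num)
  have : (16 : ℝ) * d ≤ n := by exact_mod_cast hd
  linarith

theorem upper_count : ∃ n₀ : ℕ, ∀ n : ℕ, n₀ ≤ n → ∀ r : ℕ, 1 ≤ r → 4000 * r ≤ n →
    ((Bad1 n ((n / 16 + 1) / 3) ∪ Bad2 n r (n / 16)).card : ℝ) ≤ 2 ^ ((n.choose 2 : ℝ) - r * n / 8) := by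
  have hlim : Tendsto (fun x : ℝ => Real.log x / x) atTop (nhds 0) := by
    have := Real.isLittleO_log_id_atTop.tendsto_div_nhds_zero
    simpa using this
  have hl2 : 0 < Real.log 2 := Real.log_pos (by norm_num)
  have hev := (hlim.comp tendsto_natCast_atTop_atTop).eventually_lt_const
    (show (0 : ℝ) < Real.log 2 / 100000 by positivity)
  obtain ⟨n₁, hn₁⟩ := eventually_atTop.1 hev
  refine ⟨max n₁ 100000, fun n hn r hr hrn => ?_⟩
  have hn1 : n₁ ≤ n := (le_max_left _ _).trans hn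
  have hn2 : 100000 ≤ n := (le_max_right _ _).trans hn
  have hnR : (100000 : ℝ) ≤ n := by exact_mod_cast hn2
  have hn0 : (0 : ℝ) < n := by linarith
  have hrR : (4000 : ℝ) * r ≤ n := by exact_mod_cast hrn
  have hr1 : (1 : ℝ) ≤ r := by exact_mod_cast hr
  obtain ⟨L, hL⟩ : ∃ L, L = Real.logb 2 n := ⟨_, rfl⟩
  have hnL : (n : ℝ) = 2 ^ L := by rw [hL, Real.rpow_logb (by norm_num) (by norm_num) hn0]
  have hL0 : 0 ≤ L := by
    rw [hL]
    exact Real.logb_nonneg (by norm_num) (by linarith)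
  have hLn : L ≤ n / 100000 := by
    have h1 := hn₁ n hn1
    simp only [Function.comp_apply] at h1
    rw [div_lt_iff₀ hn0] at h1
    rw [hL, Real.logb, div_le_iff₀ hl2]
    linarith
  obtain ⟨X, hX⟩ : ∃ X : ℝ, X = (n.choose 2 : ℝ) - r * n / 8 := ⟨_, rfl⟩
  have p2 : ∀ k : ℕ, (2 : ℝ) ^ k = 2 ^ (k : ℝ) := fun k => (Real.rpow_natCast 2 k).symm
  -- near automorphisms
  have hB1 : ((Bad1 n ((n / 16 + 1) / 3)).card : ℝ) ≤ 2 ^ (X - 1) := by
    obtain ⟨a, ha⟩ : ∃ a, a = (n / 16 + 1) / 3 := ⟨_, rfl⟩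
    rw [← ha]
    have h : ((Bad1 n a).card : ℝ) * 2 ^ a.choose 2 ≤ 2 ^ n.choose 2 * (n.factorial * 2 ^ n) := by
      exact_mod_cast card_Bad1 n a
    have hf : (n.factorial : ℝ) ≤ 2 ^ (L * n) := by
      rw [Real.rpow_mul (by norm_num), ← hnL, Real.rpow_natCast]
      exact_mod_cast Nat.factorial_le_pow n
    have h2 : ((Bad1 n a).card : ℝ) ≤ 2 ^ ((n.choose 2 : ℝ) + (L * n + n) - (a.choose 2 : ℕ)) := by
      rw [Real.rpow_sub (by norm_num), le_div_iff₀ (by positivity), Real.rpow_add (by norm_num),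
        Real.rpow_add (by norm_num), ← p2, ← p2, ← p2]
      refine h.trans ?_
      gcongr
    refine h2.trans ?_
    apply Real.rpow_le_rpow_of_exponent_le (by norm_num)
    have hac : ((a.choose 2 : ℕ) : ℝ) = a * (a - 1) / 2 := Nat.cast_choose_two ℝ a
    have haR : (n : ℝ) / 48 - 1 ≤ a := by
      have h3 : n ≤ 48 * a + 48 := by omega
      have h4 : (n : ℝ) ≤ 48 * a + 48 := by exact_mod_cast h3
      linarith
    have h5 : ((n : ℝ) / 48 - 1) * ((n : ℝ) / 48 - 2) ≤ a * (a - 1) := by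
      apply mul_le_mul haR (by linarith) (by linarith) (by linarith)
    have h6 : L * n ≤ n / 100000 * n := mul_le_mul_of_nonneg_right hLn hn0.le
    have h7 : (r : ℝ) * n ≤ n / 4000 * n := mul_le_mul_of_nonneg_right (by linarith) hn0.le
    have h8 : (100000 : ℝ) * n ≤ n * n := mul_le_mul_of_nonneg_right hnR hn0.le
    rw [hac, hX]
    nlinarith
  have hB2 : ((Bad2 n r (n / 16)).card : ℝ) ≤ 2 ^ (X - 1) := by
    have h : ((Bad2 n r (n / 16)).card : ℝ) * 2 ^ (r * (n - r)) ≤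
        2 ^ n.choose 2 * ((n ^ r * n ^ r) * (Nd n (n / 16) : ℝ) ^ r) := by
      exact_mod_cast card_Bad2 n r (n / 16)
    have h1 : (Nd n (n / 16) : ℝ) ^ r ≤ 2 ^ ((n : ℝ) / 2 * r) := by
      rw [Real.rpow_mul (by norm_num), Real.rpow_natCast]
      exact pow_le_pow_left₀ (Nat.cast_nonneg _) (Nd_real n (n / 16) (by omega)) r
    have h2 : (n : ℝ) ^ r = 2 ^ (L * r) := by
      rw [Real.rpow_mul (by norm_num), ← hnL, Real.rpow_natCast]
    have h3 : ((r * (n - r) : ℕ) : ℝ) = r * (n - r) := by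
      rw [Nat.cast_mul, Nat.cast_sub (by omega)]
    have h4 : ((Bad2 n r (n / 16)).card : ℝ) ≤
        2 ^ ((n.choose 2 : ℝ) + ((L * r + L * r) + (n : ℝ) / 2 * r) - ((r * (n - r) : ℕ) : ℝ)) := by
      rw [Real.rpow_sub (by norm_num), le_div_iff₀ (by positivity), Real.rpow_add (by norm_num),
        Real.rpow_add (by norm_num), Real.rpow_add (by norm_num), ← p2, ← p2, ← h2]
      refine h.trans ?_
      gcongr
    refine h4.trans ?_
    apply Real.rpow_le_rpow_of_exponent_le (by norm_num)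
    rw [h3, hX]
    have h5 : 2 * L + n / 2 - (n - r) + n / 8 ≤ -1 := by linarith
    have h6 := mul_le_mul_of_nonneg_left h5 (by linarith : (0 : ℝ) ≤ r)
    nlinarith
  have h := card_union_le (Bad1 n ((n / 16 + 1) / 3)) (Bad2 n r (n / 16))
  have h' : ((Bad1 n ((n / 16 + 1) / 3) ∪ Bad2 n r (n / 16)).card : ℝ) ≤
      (Bad1 n ((n / 16 + 1) / 3)).card + (Bad2 n r (n / 16)).card := by exact_mod_cast h
  rw [← hX]
  calc ((Bad1 n ((n / 16 + 1) / 3) ∪ Bad2 n r (n / 16)).card : ℝ) ≤ 2 ^ (X - 1) + 2 ^ (X - 1) := by linarith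
    _ = 2 ^ X := by
        rw [Real.rpow_sub_one (by norm_num)]
        ring

end Pool.Agent.Run7.h91.RN
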