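import Pool.Agent.Run7.h91.RN.Num
import Pool.Agent.Y395.RS.Compl

set_option autoImplicit false

/-!
Graph reconstruction from any few cards: the upper bound.
-/

namespace Pool.Agent.Run7.h91.RN

open Finset Filter
open scoped Classical
open Pool.Agent.H234RC (TLat TCard)

/-- Any `m` cards of `T(H)` determine `T(H)`. -/
def Det (m : ℕ) {V : Type} (H : SimpleGraph V) : Prop :=
  ∀ (U : Finset V), m ≤ U.card → ∀ (W : Type) [Fintype W] (G : SimpleGraph W) (f : V → W),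
    (∀ x ∈ U, ∀ y ∈ U, f x = f y → x = y) →
    (∀ v ∈ U, Nonempty (TCard H v ≃o TCard G (f v))) → Nonempty (TLat H ≃o TLat G)

theorem det_of_good {n : ℕ} (H : SimpleGraph (Fin n)) (a r d m : ℕ) (had : 3 * a ≤ d + 1)
    (h1 : H ∉ Bad1 n a) (h2 : H ∉ Bad2 n r d) (hm3 : 3 ≤ m) (hm : 6 * (r - 1) + 1 ≤ m) : Det m H := by
  intro U hU W _ G f hf hc
  obtain ⟨B, hBc, hna⟩ := good H a r d had h1 h2
  -- the cards
  have hπ : ∀ v : Fin n, v ∈ U → ∃ π : Fin n ≃ W, π v = f v ∧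
      ∀ x y, x ≠ v → y ≠ v → (G.Adj (π x) (π y) ↔ H.Adj x y) := fun v hv =>
    Pool.Agent.H234RC.card_ext H G v (f v) (hc v hv)
  obtain ⟨v₁, hv₁⟩ : U.Nonempty := card_pos.1 (by omega)
  have hWc : Fintype.card (Fin n) = (univ : Finset W).card := by
    rw [card_univ]
    exact Fintype.card_congr (hπ v₁ hv₁).choose
  obtain ⟨g₀, hg₀⟩ := exists_equiv_extend_of_card_eq hWc (s := U) (f := f) (subset_univ _)
    (fun x hx y hy h => hf x hx y hy h)
  obtain ⟨g, hg⟩ : ∃ g : Fin n ≃ W, g = g₀.trans (Equiv.subtypeUnivEquiv (fun x => mem_univ x)) := ⟨_, rfl⟩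
  have hgU : ∀ v ∈ U, g v = f v := by
    intro v hv
    rw [hg]
    exact hg₀ v hv
  have hch : ∀ v : Fin n, ∃ π : Fin n ≃ W, v ∈ U → (π v = f v ∧
      ∀ x y, x ≠ v → y ≠ v → (G.Adj (π x) (π y) ↔ H.Adj x y)) := by
    intro v
    by_cases hv : v ∈ U
    · obtain ⟨π, h⟩ := hπ v hv
      exact ⟨π, fun _ => h⟩
    · exact ⟨g, fun h => absurd h hv⟩
  choose π' hπ' using hch
  have hUB : U.card ≤ (U \ B).card + B.card := by
    have := le_card_sdiff B U
    omega
  obtain ⟨σ, hσ⟩ := det H (G.comap g) B U hna (fun v => g.trans (π' v).symm) (by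
    intro v hv
    simp only [Equiv.trans_apply]
    rw [hgU v hv, ← (hπ' v hv).1, Equiv.symm_apply_apply]) (by
    intro v hv x y hx hy
    simp only [Equiv.trans_apply, SimpleGraph.comap_adj]
    have e1 : (π' v).symm (g x) ≠ v := by
      intro e
      rw [Equiv.symm_apply_eq, (hπ' v hv).1, ← hgU v hv] at e
      exact hx (g.injective e)
    have e2 : (π' v).symm (g y) ≠ v := by
      intro e
      rw [Equiv.symm_apply_eq, (hπ' v hv).1, ← hgU v hv] at e
      exact hy (g.injective e)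
    rw [← (hπ' v hv).2 _ _ e1 e2, Equiv.apply_symm_apply, Equiv.apply_symm_apply]) (by omega) (by omega)
  apply Pool.Agent.H234RC.whole_iso H G (σ.symm.trans g)
  intro x y
  simp only [Equiv.trans_apply]
  have := hσ (σ.symm x) (σ.symm y)
  rw [Equiv.apply_symm_apply, Equiv.apply_symm_apply, SimpleGraph.comap_adj] at this
  exact this.symm

theorem upper : ∃ n₀ : ℕ, ∀ n : ℕ, n₀ ≤ n → ∀ m : ℕ, 3 ≤ m → 4000 * m ≤ n →
    (({H : SimpleGraph (Fin n) | ¬ Det m H}.ncard : ℕ) : ℝ) ≤ 2 ^ ((n.choose 2 : ℝ) - m * n / 48) := by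
  obtain ⟨n₀, h⟩ := upper_count
  refine ⟨n₀, fun n hn m hm hmn => ?_⟩
  obtain ⟨r, hr⟩ : ∃ r, r = (m - 1) / 6 + 1 := ⟨_, rfl⟩
  have h1 := h n hn r (by omega) (by omega)
  have hsub : {H : SimpleGraph (Fin n) | ¬ Det m H} ⊆
      ((Bad1 n ((n / 16 + 1) / 3) ∪ Bad2 n r (n / 16) : Finset (SimpleGraph (Fin n))) :
        Set (SimpleGraph (Fin n))) := by
    intro H hH
    by_contra hcon
    rw [mem_coe, mem_union, not_or] at hcon
    exact hH (det_of_good H _ r (n / 16) m (by omega) hcon.1 hcon.2 hm (by omega))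
  have h2 := Set.ncard_le_ncard hsub (finite_toSet _)
  rw [Set.ncard_coe_finset] at h2
  have h3 : (({H : SimpleGraph (Fin n) | ¬ Det m H}.ncard : ℕ) : ℝ) ≤
      ((Bad1 n ((n / 16 + 1) / 3) ∪ Bad2 n r (n / 16)).card : ℝ) := by exact_mod_cast h2
  refine (h3.trans h1).trans ?_
  apply Real.rpow_le_rpow_of_exponent_le (by norm_num)
  have h4 : (m : ℝ) ≤ 6 * r := by
    have : m ≤ 6 * r := by omega
    exact_mod_cast this
  have h5 := mul_le_mul_of_nonneg_right h4 (Nat.cast_nonneg n)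
  linarith

end Pool.Agent.Run7.h91.RN
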